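import Pool.Agent.R524.GD.Count

/-!
# The distribution of the gaps between primes: continuity is automatic

Let `p_n` be the `n`-th prime and `A_c = {n ≥ 2 : (p_{n+1} - p_n) / log n < c}`.  There is an absolute
constant `C` such that for `0 ≤ x < y` the set of `n` with `x ≤ (p_{n+1} - p_n) / log n < y` has upper
density at most `C (y - x)`: every limit law of the normalised gaps is absolutely continuous with
density at most `C`.  So the set of the `c ≥ 0` for which `A_c` has a natural density `f(c)` is closed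
and `f` is Lipschitz on it.  If it is dense (for example if it contains all rational `c`), then it is
`[0, ∞)`; in particular the continuity in the conjecture of Erdős follows from the existence of the
densities.

Proof.  The upper bound sieve for the pairs `q`, `q + h` of primes, `q ≤ p_{N+1}`, is summed over the
`h` in the window `x (log N - κ) ≤ h ≤ y log N`, `κ` a constant (the `n ≤ e^(-κ) N` are neglected), on
which `(σ(h) / h)²` is bounded on average.
-/

set_option autoImplicit false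

namespace Pool.Agent.Results.MP_3499c5_nt.ContinuityAutomatic

open Filter Topology

/-- `(p_{n+1} - p_n) / log n`, where `p_n` is the `n`-th prime, `p_1 = 2` (in Lean the `n`-th prime is
`Nat.nth Nat.Prime (n - 1)`) -/
noncomputable def gap (n : ℕ) : ℝ :=
  ((Nat.nth Nat.Prime n : ℝ) - Nat.nth Nat.Prime (n - 1)) / Real.log n

/-- the set `A_c` of the problem -/
def A (c : ℝ) : Set ℕ := {n : ℕ | 2 ≤ n ∧ gap n < c}

/-- the number of `n ≤ N`, `n ≥ 1`, in the set `B` -/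
noncomputable def count (B : Set ℕ) (N : ℕ) : ℕ := {n : ℕ | n ∈ B ∧ 1 ≤ n ∧ n ≤ N}.ncard

/-- `B` has natural density `δ` -/
def HasDensity (B : Set ℕ) (δ : ℝ) : Prop :=
  Tendsto (fun N : ℕ => (count B N : ℝ) / N) atTop (𝓝 δ)

theorem count_eq {B : Set ℕ} [DecidablePred (· ∈ B)] (N : ℕ) :
    count B N = ((Finset.Icc 1 N).filter (· ∈ B)).card := by
  unfold count
  rw [← Set.ncard_coe_finset]
  congr 1
  ext n
  simp only [Finset.coe_filter, Finset.mem_Icc]
  constructor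
  · rintro ⟨h1, h2⟩
    exact ⟨h2, h1⟩
  · rintro ⟨h1, h2⟩
    exact ⟨h2, h1⟩

open Classical in
theorem window : ∃ C : ℝ, 0 < C ∧ ∀ x y : ℝ, 0 ≤ x → x < y → ∀ ε : ℝ, 0 < ε →
    ∃ N₀ : ℕ, ∀ N : ℕ, N₀ ≤ N →
      (count {n : ℕ | 2 ≤ n ∧ x ≤ gap n ∧ gap n < y} N : ℝ) ≤ (C * (y - x) + ε) * N := by
  obtain ⟨C, hC, h⟩ := Pool.Agent.R524.GD.count_window
  refine ⟨C, by linarith, fun x y hx hxy ε hε => ?_⟩
  obtain ⟨N₀, h0⟩ := h x y hx hxy ε hε
  refine ⟨N₀, fun N hN => ?_⟩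
  rw [count_eq]
  refine le_trans ?_ (h0 N hN)
  have hsub : (Finset.Icc 1 N).filter (· ∈ {n : ℕ | 2 ≤ n ∧ x ≤ gap n ∧ gap n < y}) ⊆
      (Finset.Icc 2 N).filter (fun n => x ≤ Pool.Agent.H361R2.PP.gp n ∧
        Pool.Agent.H361R2.PP.gp n < y) := by
    intro n hn
    rw [Finset.mem_filter, Finset.mem_Icc] at hn
    rw [Finset.mem_filter, Finset.mem_Icc]
    exact ⟨⟨hn.2.1, hn.1.2⟩, hn.2.2⟩
  exact_mod_cast Finset.card_le_card hsub

theorem count_mono {B B' : Set ℕ} (h : B ⊆ B') (N : ℕ) : count B N ≤ count B' N := by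
  classical
  rw [count_eq, count_eq]
  refine Finset.card_le_card fun n hn => ?_
  rw [Finset.mem_filter] at hn ⊢
  exact ⟨hn.1, h hn.2⟩

theorem count_split (x y : ℝ) (N : ℕ) : count (A y) N ≤
    count (A x) N + count {n : ℕ | 2 ≤ n ∧ x ≤ gap n ∧ gap n < y} N := by
  classical
  rw [count_eq, count_eq, count_eq]
  refine le_trans (Finset.card_le_card ?_) (Finset.card_union_le _ _)
  intro n hn
  rw [Finset.mem_filter] at hn
  rw [Finset.mem_union, Finset.mem_filter, Finset.mem_filter]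
  by_cases h : gap n < x
  · exact Or.inl ⟨hn.1, hn.2.1, h⟩
  · push Not at h
    exact Or.inr ⟨hn.1, hn.2.1, h, hn.2.2⟩

/-- the frequencies of `A x` and `A y` are close -/
theorem diff_bound {C : ℝ} (hw : ∀ x y : ℝ, 0 ≤ x → x < y → ∀ ε : ℝ, 0 < ε →
    ∃ N₀ : ℕ, ∀ N : ℕ, N₀ ≤ N →
      (count {n : ℕ | 2 ≤ n ∧ x ≤ gap n ∧ gap n < y} N : ℝ) ≤ (C * (y - x) + ε) * N) :
    ∀ x y : ℝ, 0 ≤ x → x < y → ∀ ε : ℝ, 0 < ε → ∃ N₀ : ℕ, ∀ N : ℕ, N₀ ≤ N →
      0 ≤ (count (A y) N : ℝ) / N - (count (A x) N : ℝ) / N ∧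
      (count (A y) N : ℝ) / N - (count (A x) N : ℝ) / N ≤ C * (y - x) + ε := by
  intro x y hx hxy ε hε
  obtain ⟨N₀, h⟩ := hw x y hx hxy ε hε
  refine ⟨max N₀ 1, fun N hN => ?_⟩
  have hN1 : (0 : ℝ) < N := by
    have : 1 ≤ N := (le_max_right _ _).trans hN
    exact_mod_cast this
  have h1 := h N ((le_max_left _ _).trans hN)
  have h2 : (count (A y) N : ℝ) ≤ count (A x) N +
      count {n : ℕ | 2 ≤ n ∧ x ≤ gap n ∧ gap n < y} N := by
    exact_mod_cast count_split x y N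
  have hAA : A x ⊆ A y := fun n hn => ⟨hn.1, lt_trans hn.2 hxy⟩
  have h3 : (count (A x) N : ℝ) ≤ count (A y) N := by
    exact_mod_cast count_mono hAA N
  rw [← sub_div]
  constructor
  · exact div_nonneg (by linarith) hN1.le
  · rw [div_le_iff₀ hN1]
    linarith

/-- the set of the `c ≥ 0` for which `A c` has a natural density -/
def G : Set ℝ := {c : ℝ | 0 ≤ c ∧ ∃ δ : ℝ, HasDensity (A c) δ}

/-- Let `G` be the set of the `c ≥ 0` for which `A_c` has a natural density.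
(1) The upper density of the `n` with `x ≤ (p_{n+1} - p_n) / log n < y` is at most `C (y - x)`.
(2) `G` is closed, and if `A_c` has natural density `f c` for `c ∈ G` then
`0 ≤ f y - f x ≤ C (y - x)` for `x ≤ y` in `G`.
(3) If `G` contains a set `D` which is dense in `[0, ∞)` then there is
`f`, continuous on `[0, ∞)`, such that `A_c` has natural density `f c` for every `c ≥ 0`. -/
theorem result : ∃ C : ℝ, 0 < C ∧
    (∀ x y : ℝ, 0 ≤ x → x < y → ∀ ε : ℝ, 0 < ε → ∃ N₀ : ℕ, ∀ N : ℕ, N₀ ≤ N →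
      (count {n : ℕ | 2 ≤ n ∧ x ≤ gap n ∧ gap n < y} N : ℝ) ≤ (C * (y - x) + ε) * N) ∧
    (IsClosed G ∧ ∀ f : ℝ → ℝ, (∀ c ∈ G, HasDensity (A c) (f c)) →
      ∀ x ∈ G, ∀ y ∈ G, x ≤ y → 0 ≤ f y - f x ∧ f y - f x ≤ C * (y - x)) ∧
    ∀ D : Set ℝ, D ⊆ G → (∀ x y : ℝ, 0 ≤ x → x < y → ∃ c ∈ D, x < c ∧ c < y) →
      ∃ f : ℝ → ℝ, ContinuousOn f (Set.Ici 0) ∧ ∀ c : ℝ, 0 ≤ c → HasDensity (A c) (f c) := by
  obtain ⟨C, hC, hw⟩ := window
  have hdiff := diff_bound hw
  have hlip : ∀ f : ℝ → ℝ, (∀ c ∈ G, HasDensity (A c) (f c)) →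
      ∀ x ∈ G, ∀ y ∈ G, x ≤ y → 0 ≤ f y - f x ∧ f y - f x ≤ C * (y - x) := by
    intro f hf x hx y hy hxy
    rcases hxy.eq_or_lt with rfl | hlt
    · simp
    have hlim := (hf y hy).sub (hf x hx)
    constructor
    · obtain ⟨N₀, h⟩ := hdiff x y hx.1 hlt 1 one_pos
      exact ge_of_tendsto hlim (eventually_atTop.2 ⟨N₀, fun N hN => (h N hN).1⟩)
    · refine le_of_forall_pos_le_add fun ε hε => ?_
      obtain ⟨N₀, h⟩ := hdiff x y hx.1 hlt ε hε
      exact le_of_tendsto hlim (eventually_atTop.2 ⟨N₀, fun N hN => (h N hN).2⟩)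
  have hclosed : IsClosed G := by
    refine isClosed_of_closure_subset fun c hc => ?_
    have hc0 : 0 ≤ c := by
      have h1 : closure G ⊆ Set.Ici (0 : ℝ) := closure_minimal (fun c hc => hc.1) isClosed_Ici
      exact h1 hc
    refine ⟨hc0, ?_⟩
    suffices hcau : CauchySeq (fun N : ℕ => (count (A c) N : ℝ) / N) from
      cauchySeq_tendsto_of_complete hcau
    rw [Metric.cauchySeq_iff']
    intro ε hε
    obtain ⟨c₁, ⟨hc₁0, δ, hδ⟩, hdist⟩ := Metric.mem_closure_iff.1 hc (ε / (8 * C)) (by positivity)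
    rw [Real.dist_eq] at hdist
    have hCc : C * |c - c₁| ≤ ε / 8 := by
      have h3 : C * |c - c₁| ≤ C * (ε / (8 * C)) := mul_le_mul_of_nonneg_left hdist.le hC.le
      have h4 : C * (ε / (8 * C)) = ε / 8 := by field_simp
      linarith
    have hd : ∃ N₁ : ℕ, ∀ N : ℕ, N₁ ≤ N →
        |(count (A c) N : ℝ) / N - (count (A c₁) N : ℝ) / N| ≤ ε / 4 := by
      rcases lt_trichotomy c c₁ with h | h | h
      · obtain ⟨N₁, h1⟩ := hdiff c c₁ hc0 h (ε / 8) (by positivity)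
        refine ⟨N₁, fun N hN => ?_⟩
        have h2 := h1 N hN
        rw [abs_sub_comm, abs_of_pos (by linarith : 0 < c₁ - c)] at hCc
        rw [abs_sub_comm, abs_of_nonneg h2.1]
        linarith [h2.2]
      · refine ⟨0, fun N _ => ?_⟩
        rw [h, sub_self, abs_zero]
        positivity
      · obtain ⟨N₁, h1⟩ := hdiff c₁ c hc₁0 h (ε / 8) (by positivity)
        refine ⟨N₁, fun N hN => ?_⟩
        have h2 := h1 N hN
        rw [abs_of_pos (by linarith : 0 < c - c₁)] at hCc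
        rw [abs_of_nonneg h2.1]
        linarith [h2.2]
    obtain ⟨N₁, h1⟩ := hd
    obtain ⟨N₂, h2⟩ := Metric.cauchySeq_iff'.1 hδ.cauchySeq (ε / 8) (by positivity)
    refine ⟨max N₁ N₂, fun N hN => ?_⟩
    have a1 := abs_le.1 (h1 N ((le_max_left _ _).trans hN))
    have a2 := abs_le.1 (h1 (max N₁ N₂) (le_max_left _ _))
    have a3 := h2 N ((le_max_right _ _).trans hN)
    have a4 := h2 (max N₁ N₂) (le_max_right _ _)
    rw [Real.dist_eq, abs_lt] at a3 a4
    rw [Real.dist_eq, abs_lt]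
    constructor <;> linarith [a1.1, a1.2, a2.1, a2.2, a3.1, a3.2, a4.1, a4.2]
  refine ⟨C, hC, hw, ⟨hclosed, hlip⟩, fun D hDG hD => ?_⟩
  have hall : ∀ c : ℝ, 0 ≤ c → c ∈ G := by
    intro c hc
    refine hclosed.closure_subset (Metric.mem_closure_iff.2 fun ε hε => ?_)
    obtain ⟨c₁, h1, h2, h3⟩ := hD c (c + ε) hc (by linarith)
    refine ⟨c₁, hDG h1, ?_⟩
    rw [Real.dist_eq, abs_sub_comm, abs_of_pos (by linarith)]
    linarith
  have hex : ∀ c : ℝ, ∃ δ : ℝ, 0 ≤ c → HasDensity (A c) δ := by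
    intro c
    by_cases hc : 0 ≤ c
    · obtain ⟨δ, hδ⟩ := (hall c hc).2
      exact ⟨δ, fun _ => hδ⟩
    · exact ⟨0, fun h => absurd h hc⟩
  choose f hf using hex
  refine ⟨f, ?_, hf⟩
  have hl := hlip f (fun c hc => hf c hc.1)
  have hL : LipschitzOnWith C.toNNReal f (Set.Ici 0) := by
    refine LipschitzOnWith.of_dist_le_mul fun x hx y hy => ?_
    rw [Real.dist_eq, Real.dist_eq, Real.coe_toNNReal C hC.le]
    rcases le_total x y with h | h
    · have h1 := hl x (hall x hx) y (hall y hy) h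
      rw [abs_sub_comm, abs_of_nonneg h1.1, abs_sub_comm x y, abs_of_nonneg (by linarith)]
      exact h1.2
    · have h1 := hl y (hall y hy) x (hall x hx) h
      rw [abs_of_nonneg h1.1, abs_of_nonneg (by linarith)]
      exact h1.2
  exact hL.continuousOn

end Pool.Agent.Results.MP_3499c5_nt.ContinuityAutomatic
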